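import Pool.Agent.D0H64.MX.Stm3
import Pool.Agent.D0H21.TI.Ind
import Pool.Agent.D0H21.TI.Burn
import Pool.Agent.D0H10.TI.Tame
import Pool.Agent.D0H53.TI.Nrm

/-!
# Project MX, module 28 CMPD: comparison of discriminants of subfields of an `S_m`-field
-/

set_option autoImplicit false

open NumberField

namespace Pool.Agent.D0H16.MX

open Pool.Agent.D0H15.TI (orb)

/-- equivariant bijections preserve the number of orbits -/
theorem orb_congr {G P : Type} [Group G] [Group P] (r : G ≃* P) (I : Subgroup G) (Y Z : Type)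
    [MulAction G Y] [MulAction P Z] (e : Y ≃ Z) (he : ∀ (g : G) (y : Y), e (g • y) = r g • e y) :
    Nat.card (MulAction.orbitRel.Quotient I Y) = Nat.card (MulAction.orbitRel.Quotient (I.map r.toMonoidHom) Z) := by
  refine Nat.card_congr (Quotient.congr e fun a b => ?_)
  constructor
  · rintro ⟨⟨g, hg⟩, h⟩
    refine ⟨⟨r g, Subgroup.mem_map.2 ⟨g, hg, rfl⟩⟩, ?_⟩
    have h1 : g • b = a := h
    show r g • e b = e a
    rw [← he, h1]
  · rintro ⟨⟨x, hx⟩, h⟩
    obtain ⟨g, hg, rfl⟩ := Subgroup.mem_map.1 hx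
    refine ⟨⟨g, hg⟩, ?_⟩
    have h1 : r g • e b = e a := h
    show g • b = a
    apply e.injective
    rw [he, h1]

/-- the number of orbits on the cosets of the preimage of a point stabiliser -/
theorem orb_point {G : Type} [Group G] {m : ℕ} (r : G ≃* Equiv.Perm (Fin m)) (H : Subgroup G) (i : Fin m)
    (hH : H.map r.toMonoidHom = MulAction.stabilizer (Equiv.Perm (Fin m)) i) (I : Subgroup G) :
    orb I H = Nat.card (MulAction.orbitRel.Quotient (I.map r.toMonoidHom) (Fin m)) ∧ H.index = m := by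
  let act : MulAction G (Fin m) := MulAction.compHom (Fin m) r.toMonoidHom
  have hsm : ∀ (g : G) (j : Fin m), g • j = r g • j := fun g j => rfl
  have hst : MulAction.stabilizer G i = H := by
    ext g
    rw [MulAction.mem_stabilizer_iff, hsm]
    constructor
    · intro h
      have h1 : r g ∈ H.map r.toMonoidHom := by
        rw [hH]
        exact h
      obtain ⟨g', hg', h2⟩ := Subgroup.mem_map.1 h1
      have h3 : g' = g := r.injective h2
      rwa [← h3]
    · intro h
      have h1 : r g ∈ H.map r.toMonoidHom := Subgroup.mem_map.2 ⟨g, h, rfl⟩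
      rw [hH] at h1
      exact h1
  have hbij : Function.Bijective (MulAction.ofQuotientStabilizer G i) := by
    refine ⟨MulAction.injective_ofQuotientStabilizer G i, fun j => ?_⟩
    refine ⟨QuotientGroup.mk (r.symm (Equiv.swap i j)), ?_⟩
    rw [MulAction.ofQuotientStabilizer_mk, hsm, MulEquiv.apply_symm_apply, Equiv.Perm.smul_def, Equiv.swap_apply_left]
  subst hst
  constructor
  · exact orb_congr r I _ _ (Equiv.ofBijective _ hbij) (fun g y => by
      show MulAction.ofQuotientStabilizer G i (g • y) = _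
      rw [MulAction.ofQuotientStabilizer_smul]
      rfl)
  · rw [Subgroup.index, Nat.card_congr (Equiv.ofBijective _ hbij), Nat.card_eq_fintype_card, Fintype.card_fin]

/-- the inequality for the numbers of orbits -/
theorem orb_ineq (C m : ℕ) (hO : ∀ (X : Type) [Finite X] [MulAction (Equiv.Perm (Fin m)) X]
    [FaithfulSMul (Equiv.Perm (Fin m)) X] [MulAction.IsPretransitive (Equiv.Perm (Fin m)) X]
    (I : Subgroup (Equiv.Perm (Fin m))),
    Nat.card X * (m - Nat.card (MulAction.orbitRel.Quotient I (Fin m))) ≤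
      C * m * Nat.log 2 m * (Nat.card X - Nat.card (MulAction.orbitRel.Quotient I X)))
    {G : Type} [Group G] [Finite G] (r : G ≃* Equiv.Perm (Fin m)) (H K : Subgroup G) (hH : H.normalCore = ⊥)
    (i : Fin m) (hK : K.map r.toMonoidHom = MulAction.stabilizer (Equiv.Perm (Fin m)) i) (I : Subgroup G) :
    H.index * (K.index - orb I K) ≤ C * m * Nat.log 2 m * (H.index - orb I H) := by
  obtain ⟨h1, h2⟩ := orb_point r K i hK I
  rw [h1, h2]
  let act : MulAction (Equiv.Perm (Fin m)) (G ⧸ H) := MulAction.compHom (G ⧸ H) r.symm.toMonoidHom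
  have hsm : ∀ (x : Equiv.Perm (Fin m)) (y : G ⧸ H), x • y = r.symm x • y := fun x y => rfl
  have : FaithfulSMul (Equiv.Perm (Fin m)) (G ⧸ H) := by
    refine ⟨fun {x y} hxy => ?_⟩
    have h3 : ∀ z : G ⧸ H, r.symm x • z = r.symm y • z := fun z => hxy z
    have h4 : (r.symm y)⁻¹ * r.symm x ∈ H.normalCore := by
      intro b
      have h5 := h3 (QuotientGroup.mk b⁻¹)
      have h6 : (QuotientGroup.mk (r.symm x * b⁻¹) : G ⧸ H) = QuotientGroup.mk (r.symm y * b⁻¹) := h5
      have h7 := QuotientGroup.eq.1 h6.symm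
      have h8 : b * ((r.symm y)⁻¹ * r.symm x) * b⁻¹ = (r.symm y * b⁻¹)⁻¹ * (r.symm x * b⁻¹) := by group
      rw [h8]
      exact h7
    rw [hH, Subgroup.mem_bot] at h4
    have h9 : r.symm x = r.symm y := by
      rw [inv_mul_eq_one] at h4
      exact h4.symm
    exact r.symm.injective h9
  have : MulAction.IsPretransitive (Equiv.Perm (Fin m)) (G ⧸ H) := by
    refine ⟨fun x y => ?_⟩
    obtain ⟨g, hg⟩ := MulAction.exists_smul_eq G x y
    refine ⟨r g, ?_⟩
    rw [hsm, MulEquiv.symm_apply_apply]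
    exact hg
  have h3 := hO (G ⧸ H) (I.map r.toMonoidHom)
  have h4 : orb I H = Nat.card (MulAction.orbitRel.Quotient (I.map r.toMonoidHom) (G ⧸ H)) :=
    orb_congr r I _ _ (Equiv.refl _) (fun g y => by
      show g • y = r g • y
      rw [hsm, MulEquiv.symm_apply_apply])
  rw [← h4] at h3
  exact h3

/-- the tame part: `[M : ℚ] v_p(disc F) ≤ C m log m v_p(disc M)` for `p > m` -/
theorem tame_part (hIND : Pool.Agent.D0H15.TI.S_IND) (C m : ℕ) (hO : ∀ (X : Type) [Finite X]
    [MulAction (Equiv.Perm (Fin m)) X] [FaithfulSMul (Equiv.Perm (Fin m)) X]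
    [MulAction.IsPretransitive (Equiv.Perm (Fin m)) X] (I : Subgroup (Equiv.Perm (Fin m))),
    Nat.card X * (m - Nat.card (MulAction.orbitRel.Quotient I (Fin m))) ≤
      C * m * Nat.log 2 m * (Nat.card X - Nat.card (MulAction.orbitRel.Quotient I X)))
    (N : Type) [Field N] [NumberField N] [IsGalois ℚ N] (r : (N ≃ₐ[ℚ] N) ≃* Equiv.Perm (Fin m))
    (M F : IntermediateField ℚ N) (hM : M.fixingSubgroup.normalCore = ⊥) (i : Fin m)
    (hF : F.fixingSubgroup.map r.toMonoidHom = MulAction.stabilizer (Equiv.Perm (Fin m)) i)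
    (p : ℕ) (hp : p.Prime) (hpm : m < p) :
    Module.finrank ℚ M * padicValNat p (NumberField.discr F).natAbs ≤
      C * m * Nat.log 2 m * padicValNat p (NumberField.discr M).natAbs := by
  have hcard : Module.finrank ℚ N = m.factorial := by
    rw [← IsGalois.card_aut_eq_finrank ℚ N, Nat.card_congr r.toEquiv, Nat.card_eq_fintype_card,
      Fintype.card_perm, Fintype.card_fin]
  have hnd : ¬ p ∣ Module.finrank ℚ N := by
    rw [hcard, hp.dvd_factorial]
    omega
  obtain ⟨I, hI⟩ := hIND N p hp hnd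
  have h1 := orb_ineq C m hO r M.fixingSubgroup F.fixingSubgroup hM i hF I
  have h2 := hI M
  have h3 := hI F
  rw [IntermediateField.finrank_eq_fixingSubgroup_index N] at h2 h3 ⊢
  have h4 : F.fixingSubgroup.index - orb I F.fixingSubgroup = padicValNat p (NumberField.discr F).natAbs := by omega
  have h5 : M.fixingSubgroup.index - orb I M.fixingSubgroup = padicValNat p (NumberField.discr M).natAbs := by omega
  rw [h4, h5] at h1
  exact h1

open Pool.Agent.D0H64.MX in
theorem cmpd_of (hIND : Pool.Agent.D0H15.TI.S_IND) : S_ORBM → S_WILD → S_CMPD := by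
  rintro ⟨C, hC⟩ hW
  refine ⟨C, fun m hm => ?_⟩
  refine ⟨(∏ p ∈ (Finset.range (m + 1)).filter Nat.Prime, p) ^ (m.factorial ^ 3), ?_, ?_⟩
  · apply Nat.one_le_pow
    exact Finset.prod_pos fun p hp => (Finset.mem_filter.1 hp).2.pos
  intro N _ _ _ r M F hM ⟨i, hF⟩
  set R : ℕ := ∏ p ∈ (Finset.range (m + 1)).filter Nat.Prime, p with hR
  have hR0 : R ≠ 0 := (Finset.prod_pos fun p hp => (Finset.mem_filter.1 hp).2.pos).ne'
  have hdF : (NumberField.discr F).natAbs ≠ 0 := Int.natAbs_ne_zero.2 (NumberField.discr_ne_zero F)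
  have hdM : (NumberField.discr M).natAbs ≠ 0 := Int.natAbs_ne_zero.2 (NumberField.discr_ne_zero M)
  have hdN : (NumberField.discr N).natAbs ≠ 0 := Int.natAbs_ne_zero.2 (NumberField.discr_ne_zero N)
  have hrhs : R ^ (m.factorial ^ 3) * (NumberField.discr M).natAbs ^ (C * m * Nat.log 2 m) ≠ 0 :=
    mul_ne_zero (pow_ne_zero _ hR0) (pow_ne_zero _ hdM)
  have hcard : Module.finrank ℚ N = m.factorial := by
    rw [← IsGalois.card_aut_eq_finrank ℚ N, Nat.card_congr r.toEquiv, Nat.card_eq_fintype_card,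
      Fintype.card_perm, Fintype.card_fin]
  have hMle : Module.finrank ℚ M ≤ m.factorial := by
    rw [← hcard]
    exact Nat.le_of_dvd Module.finrank_pos ⟨Module.finrank M N, (Module.finrank_mul_finrank ℚ M N).symm⟩
  refine Nat.le_of_dvd (Nat.pos_of_ne_zero hrhs) ?_
  rw [← Nat.factorization_prime_le_iff_dvd (pow_ne_zero _ hdF) hrhs]
  intro p hp
  rw [Nat.factorization_mul (pow_ne_zero _ hR0) (pow_ne_zero _ hdM), Nat.factorization_pow, Nat.factorization_pow,
    Nat.factorization_pow]
  simp only [Finsupp.add_apply, Finsupp.smul_apply, smul_eq_mul]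
  rw [Nat.factorization_def _ hp, Nat.factorization_def _ hp, Nat.factorization_def _ hp]
  by_cases hpm : m < p
  · have h1 := tame_part hIND C m (fun X _ _ _ _ I => hC m hm X I) N r M F hM i hF p hp hpm
    omega
  · have h2 : padicValNat p (NumberField.discr F).natAbs ≤ m.factorial ^ 2 := by
      have : Fact p.Prime := ⟨hp⟩
      have h3 : (NumberField.discr F).natAbs ∣ (NumberField.discr N).natAbs :=
        Int.natAbs_dvd_natAbs.2 (NumberField.discr_dvd_discr F N)
      have h4 := hW N p hp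
      rw [hcard] at h4
      exact (padicValNat_dvd_iff_le hdN).1 (dvd_trans pow_padicValNat_dvd h3) |>.trans h4
    have h5 : 1 ≤ padicValNat p R := by
      have : Fact p.Prime := ⟨hp⟩
      apply one_le_padicValNat_of_dvd hR0
      exact Finset.dvd_prod_of_mem _ (Finset.mem_filter.2 ⟨Finset.mem_range.2 (by omega), hp⟩)
    have h6 : Module.finrank ℚ M * padicValNat p (NumberField.discr F).natAbs ≤ m.factorial ^ 3 * padicValNat p R := by
      calc Module.finrank ℚ M * padicValNat p (NumberField.discr F).natAbs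
          ≤ m.factorial * m.factorial ^ 2 := Nat.mul_le_mul hMle h2
        _ = m.factorial ^ 3 * 1 := by ring
        _ ≤ _ := Nat.mul_le_mul_left _ h5
    omega

open Pool.Agent.D0H64.MX in
theorem t_CMPD : S_ORBM → S_WILD → S_CMPD :=
  cmpd_of (Pool.Agent.D0H21.TI.t_IND Pool.Agent.D0H21.TI.t_BURN Pool.Agent.D0H10.TI.t_TAME
    Pool.Agent.D0H53.TI.t_NRM)

end Pool.Agent.D0H16.MX
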