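import Pool.Agent.D0H64.MX.Stm4
import Pool.Agent.D0H16.MX.Cmpd

/-!
# Project MX, module 31 KFLD: the arithmetic core
-/

set_option autoImplicit false

open NumberField

namespace Pool.Agent.D0H16.MX

open Pool.Agent.D0H15.TI (orb)
open Pool.Agent.D0H64.MX (Pre S_WILD)

theorem hIND : Pool.Agent.D0H15.TI.S_IND :=
  Pool.Agent.D0H21.TI.t_IND Pool.Agent.D0H21.TI.t_BURN Pool.Agent.D0H10.TI.t_TAME
    Pool.Agent.D0H53.TI.t_NRM

/-- the tame part -/
theorem tameK (C m : ℕ) (hO : ∀ (G : Type) [Group G] [Finite G] (A : Subgroup G)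
    (ρ : A →* Equiv.Perm (Fin m)), Function.Surjective ρ →
    ∀ V : Subgroup (Equiv.Perm (Fin m)), V.normalCore = ⊥ → ∀ (i : Fin m) (I : Subgroup G),
    V.index * ((Pre A ρ (MulAction.stabilizer (Equiv.Perm (Fin m)) i)).index -
      orb I (Pre A ρ (MulAction.stabilizer (Equiv.Perm (Fin m)) i))) ≤
    C * m * Nat.log 2 m * ((Pre A ρ V).index - orb I (Pre A ρ V)))
    (E : Type) [Field E] [NumberField E] [IsGalois ℚ E] (A : Subgroup (E ≃ₐ[ℚ] E))
    (ρ : A →* Equiv.Perm (Fin m)) (hρ : Function.Surjective ρ) (V : Subgroup (Equiv.Perm (Fin m)))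
    (hV : V.normalCore = ⊥) (i : Fin m) (F M : IntermediateField ℚ E)
    (hM : M.fixingSubgroup = Pre A ρ V)
    (hF : F.fixingSubgroup = Pre A ρ (MulAction.stabilizer (Equiv.Perm (Fin m)) i))
    (p : ℕ) (hp : p.Prime) (hnd : ¬ p ∣ Module.finrank ℚ E) :
    V.index * padicValNat p (NumberField.discr F).natAbs ≤
      C * m * Nat.log 2 m * padicValNat p (NumberField.discr M).natAbs := by
  obtain ⟨I, hI⟩ := hIND E p hp hnd
  have h1 := hO (E ≃ₐ[ℚ] E) A ρ hρ V hV i I
  have h2 := hI M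
  have h3 := hI F
  rw [IntermediateField.finrank_eq_fixingSubgroup_index E] at h2 h3
  rw [← hM, ← hF] at h1
  have h4 : F.fixingSubgroup.index - orb I F.fixingSubgroup = padicValNat p (NumberField.discr F).natAbs := by omega
  have h5 : M.fixingSubgroup.index - orb I M.fixingSubgroup = padicValNat p (NumberField.discr M).natAbs := by omega
  rw [h4, h5] at h1
  exact h1

/-- `V.index ≤ [E : ℚ]` -/
theorem index_le {G : Type} [Group G] [Finite G] {m : ℕ} (A : Subgroup G) (ρ : A →* Equiv.Perm (Fin m))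
    (hρ : Function.Surjective ρ) (V : Subgroup (Equiv.Perm (Fin m))) : V.index ≤ Nat.card G := by
  have h1 : V.index ≤ Nat.card (Equiv.Perm (Fin m)) := by
    have := V.index_dvd_card
    exact Nat.le_of_dvd Nat.card_pos this
  have h2 : Nat.card (Equiv.Perm (Fin m)) ≤ Nat.card A := Nat.card_le_card_of_surjective ρ hρ
  have h3 : Nat.card A ≤ Nat.card G := Subgroup.card_le_card_group A
  omega

theorem kfld_core (C m : ℕ) (hO : ∀ (G : Type) [Group G] [Finite G] (A : Subgroup G)
    (ρ : A →* Equiv.Perm (Fin m)), Function.Surjective ρ →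
    ∀ V : Subgroup (Equiv.Perm (Fin m)), V.normalCore = ⊥ → ∀ (i : Fin m) (I : Subgroup G),
    V.index * ((Pre A ρ (MulAction.stabilizer (Equiv.Perm (Fin m)) i)).index -
      orb I (Pre A ρ (MulAction.stabilizer (Equiv.Perm (Fin m)) i))) ≤
    C * m * Nat.log 2 m * ((Pre A ρ V).index - orb I (Pre A ρ V)))
    (hW : S_WILD) (B : ℕ)
    (E : Type) [Field E] [NumberField E] [IsGalois ℚ E] (hB : Module.finrank ℚ E ≤ B)
    (A : Subgroup (E ≃ₐ[ℚ] E))
    (ρ : A →* Equiv.Perm (Fin m)) (hρ : Function.Surjective ρ) (V : Subgroup (Equiv.Perm (Fin m)))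
    (hV : V.normalCore = ⊥) (i : Fin m) (F M : IntermediateField ℚ E)
    (hM : M.fixingSubgroup = Pre A ρ V)
    (hF : F.fixingSubgroup = Pre A ρ (MulAction.stabilizer (Equiv.Perm (Fin m)) i)) :
    (NumberField.discr F).natAbs ^ V.index ≤
      (∏ p ∈ (Finset.range (B + 1)).filter Nat.Prime, p) ^ (B ^ 4) *
        (NumberField.discr M).natAbs ^ (C * m * Nat.log 2 m) := by
  set R : ℕ := ∏ p ∈ (Finset.range (B + 1)).filter Nat.Prime, p with hR
  have hR0 : R ≠ 0 := (Finset.prod_pos fun p hp => (Finset.mem_filter.1 hp).2.pos).ne'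
  have hdF : (NumberField.discr F).natAbs ≠ 0 := Int.natAbs_ne_zero.2 (NumberField.discr_ne_zero F)
  have hdM : (NumberField.discr M).natAbs ≠ 0 := Int.natAbs_ne_zero.2 (NumberField.discr_ne_zero M)
  have hdN : (NumberField.discr E).natAbs ≠ 0 := Int.natAbs_ne_zero.2 (NumberField.discr_ne_zero E)
  have hrhs : R ^ (B ^ 4) * (NumberField.discr M).natAbs ^ (C * m * Nat.log 2 m) ≠ 0 :=
    mul_ne_zero (pow_ne_zero _ hR0) (pow_ne_zero _ hdM)
  have hE0 : 0 < Module.finrank ℚ E := Module.finrank_pos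
  have hVle : V.index ≤ B := by
    refine (index_le A ρ hρ V).trans ?_
    rw [IsGalois.card_aut_eq_finrank ℚ E]
    exact hB
  refine Nat.le_of_dvd (Nat.pos_of_ne_zero hrhs) ?_
  rw [← Nat.factorization_prime_le_iff_dvd (pow_ne_zero _ hdF) hrhs]
  intro p hp
  rw [Nat.factorization_mul (pow_ne_zero _ hR0) (pow_ne_zero _ hdM), Nat.factorization_pow, Nat.factorization_pow,
    Nat.factorization_pow]
  simp only [Finsupp.add_apply, Finsupp.smul_apply, smul_eq_mul]
  rw [Nat.factorization_def _ hp, Nat.factorization_def _ hp, Nat.factorization_def _ hp]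
  by_cases hpm : p ∣ Module.finrank ℚ E
  · have hpB : p ≤ B := (Nat.le_of_dvd hE0 hpm).trans hB
    have : Fact p.Prime := ⟨hp⟩
    have h2 : padicValNat p (NumberField.discr F).natAbs ≤ B ^ 2 := by
      have h3 : (NumberField.discr F).natAbs ∣ (NumberField.discr E).natAbs :=
        Int.natAbs_dvd_natAbs.2 (NumberField.discr_dvd_discr F E)
      have h4 := hW E p hp
      exact ((padicValNat_dvd_iff_le hdN).1 (dvd_trans pow_padicValNat_dvd h3)).trans
        (h4.trans (Nat.pow_le_pow_left hB 2))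
    have h5 : 1 ≤ padicValNat p R := by
      apply one_le_padicValNat_of_dvd hR0
      exact Finset.dvd_prod_of_mem _ (Finset.mem_filter.2 ⟨Finset.mem_range.2 (by omega), hp⟩)
    have hB1 : 1 ≤ B := hE0.trans_le hB
    have h6 : V.index * padicValNat p (NumberField.discr F).natAbs ≤ B ^ 4 * padicValNat p R := by
      calc V.index * padicValNat p (NumberField.discr F).natAbs
          ≤ B * B ^ 2 := Nat.mul_le_mul hVle h2
        _ = B ^ 3 := by ring
        _ ≤ B ^ 4 := Nat.pow_le_pow_right hB1 (by norm_num)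
        _ = B ^ 4 * 1 := by ring
        _ ≤ _ := Nat.mul_le_mul_left _ h5
    omega
  · have h1 := tameK C m hO E A ρ hρ V hV i F M hM hF p hp hpm
    omega

end Pool.Agent.D0H16.MX
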